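import Mathlib

/-! Rainbow tree counts are not stochastically monotone in the number of colours. -/

namespace Pool.Agent.Results.MP_8b2dc5_pr.No

open SimpleGraph

/-- `H` is a tree of order `k` in `G`. -/
def IsTreeOf {V : Type} {G : SimpleGraph V} (k : ℕ) (H : G.Subgraph) : Prop :=
  H.coe.IsTree ∧ H.verts.ncard = k

/-- The edges of `H` carry pairwise distinct colours. -/
def Rainbow {V : Type} {G : SimpleGraph V} {c : ℕ} (φ : G.edgeSet → Fin c) (H : G.Subgraph) :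
    Prop :=
  ∀ e f : G.edgeSet, e.1 ∈ H.edgeSet → f.1 ∈ H.edgeSet → φ e = φ f → e = f

/-- The number of rainbow trees of order `k` under the colouring `φ`. -/
noncomputable def T {V : Type} (G : SimpleGraph V) (k : ℕ) {c : ℕ} (φ : G.edgeSet → Fin c) : ℕ :=
  {H : G.Subgraph | IsTreeOf k H ∧ Rainbow φ H}.ncard

/-- `P(T(c,k) ≥ t)` under a uniform random `c`-colouring of the edges. -/
noncomputable def tail {V : Type} (G : SimpleGraph V) (c k : ℕ) (t : ℝ) : ℝ :=
  (Nat.card {φ : G.edgeSet → Fin c // t ≤ T G k φ} : ℝ) / Nat.card (G.edgeSet → Fin c)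

lemma path_tree {V : Type} [Finite V] {G : SimpleGraph V} {u v : V} (p : G.Walk u v)
    (hp : p.IsPath) : IsTreeOf (p.length + 1) p.toSubgraph := by
  classical
  have h1 : p.toSubgraph.verts.ncard = p.length + 1 := by
    rw [Walk.verts_toSubgraph, ← List.coe_toFinset, Set.ncard_coe_finset,
      List.toFinset_card_of_nodup hp.support_nodup, Walk.length_support]
  refine ⟨isTree_iff_connected_and_card.2 ⟨p.toSubgraph_connected.coe, ?_⟩, h1⟩
  rw [Nat.card_coe_set_eq, Nat.card_coe_set_eq, h1, ← Set.ncard_image_of_injective _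
    (Sym2.map.injective Subtype.val_injective), Subgraph.image_coe_edgeSet_coe,
    Walk.edgeSet_toSubgraph, Walk.edgeSet, ← List.coe_toFinset, Set.ncard_coe_finset,
    List.toFinset_card_of_nodup hp.isTrail.edges_nodup, Walk.length_edges]

/-- The field. -/
abbrev F := ZMod 59

instance : Fact (Nat.Prime 59) := ⟨by norm_num⟩

/-- Points and lines of the biaffine plane. -/
abbrev W := Bool × F × F

/-- The incidence graph of the biaffine plane. -/
def G : SimpleGraph W where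
  Adj a b := a.1 ≠ b.1 ∧ a.2.2 + b.2.2 = a.2.1 * b.2.1
  symm := ⟨fun a b h => ⟨h.1.symm, by rw [add_comm, mul_comm]; exact h.2⟩⟩
  loopless := ⟨fun a h => h.1 rfl⟩

lemma adj {a b : W} : G.Adj a b ↔ a.1 ≠ b.1 ∧ a.2.2 + b.2.2 = a.2.1 * b.2.1 := Iff.rfl

lemma side {a b c : W} (h1 : G.Adj a b) (h2 : G.Adj b c) : a.1 = c.1 := by
  have e1 := h1.1; have e2 := h2.1
  revert e1 e2
  cases a.1 <;> cases b.1 <;> cases c.1 <;> simp

lemma same {a b c : W} (h1 : G.Adj a b) (h2 : G.Adj b c) (h : a.2.1 = c.2.1) : a = c := by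
  refine Prod.ext (side h1 h2) (Prod.ext h ?_)
  have := h1.2; have := h2.2
  grind

lemma no4 {a b c d : W} (h1 : G.Adj a b) (h2 : G.Adj b c) (h3 : G.Adj c d) (h4 : G.Adj d a)
    (hac : a ≠ c) : b = d := by
  refine same h2 h3 ?_
  have h5 : a.2.1 ≠ c.2.1 := fun h => hac (same h1 h2 h)
  have := h1.2; have := h2.2; have := h3.2; have := h4.2
  have h6 : (a.2.1 - c.2.1) * (b.2.1 - d.2.1) = 0 := by grind
  exact sub_eq_zero.1 ((mul_eq_zero.1 h6).resolve_left (sub_ne_zero.2 h5))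

lemma ext1 (a b : W) : ∃ z, G.Adj a z ∧ z ≠ b :=
  ⟨(!a.1, b.2.1 + 1, a.2.1 * (b.2.1 + 1) - a.2.2), ⟨by simp, by simp⟩, fun h => by
    simpa using congrArg (fun z : W => z.2.1) h⟩

lemma common {a c : W} (h1 : a.1 = c.1) (h : a.2.1 ≠ c.2.1) : ∃ m, G.Adj a m ∧ G.Adj m c := by
  have h' := sub_ne_zero.2 h
  refine ⟨(!a.1, (a.2.2 - c.2.2) / (a.2.1 - c.2.1),
    a.2.1 * ((a.2.2 - c.2.2) / (a.2.1 - c.2.1)) - a.2.2), ⟨by simp, by simp⟩, by simp [← h1], ?_⟩
  simp only
  field_simp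
  ring

variable {c : ℕ}

/-- Every tree of order five is rainbow. -/
def Good (φ : G.edgeSet → Fin c) : Prop := ∀ H : G.Subgraph, IsTreeOf 5 H → Rainbow φ H

lemma p5 {φ : G.edgeSet → Fin c} (hφ : Good φ) {a b x d e : W} (h1 : G.Adj a b) (h2 : G.Adj b x)
    (h3 : G.Adj x d) (h4 : G.Adj d e) (n1 : a ≠ x) (n2 : b ≠ d) (n3 : x ≠ e) :
    φ ⟨s(a, b), h1⟩ ≠ φ ⟨s(d, e), h4⟩ ∧ φ ⟨s(a, b), h1⟩ ≠ φ ⟨s(x, d), h3⟩ ∧
      φ ⟨s(b, x), h2⟩ ≠ φ ⟨s(x, d), h3⟩ := by
  have n4 : a ≠ e := fun h => n2 (no4 h1 h2 h3 (h ▸ h4) n1)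
  have n5 : a ≠ d := fun h => h3.1 ((side h1 h2).symm.trans (congrArg _ h))
  have n6 : b ≠ e := fun h => h4.1 ((side h2 h3).symm.trans (congrArg _ h))
  have a1 := h1.ne; have a2 := h2.ne; have a3 := h3.ne; have a4 := h4.ne
  have hp : (Walk.cons h1 (.cons h2 (.cons h3 (.cons h4 .nil)))).IsPath := by
    simp [Walk.isPath_def, *]
  have := hφ _ (path_tree _ hp)
  refine ⟨fun h => ?_, fun h => ?_, fun h => ?_⟩ <;>
  · have := this _ _ (by simp) (by simp) h
    simp only [Subtype.mk.injEq, Sym2.eq, Sym2.rel_iff', Prod.mk.injEq, Prod.swap_prod_mk] at this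
    grind

lemma diff {φ : G.edgeSet → Fin c} (hφ : Good φ) {p l p' l' : W} (h : G.Adj p l)
    (h' : G.Adj p' l') (hs : p.1 = p'.1) (hu : p.2.1 ≠ p'.2.1) :
    φ ⟨s(l, p), h.symm⟩ ≠ φ ⟨s(p', l'), h'⟩ := by
  have hpp : p ≠ p' := fun e => hu (by rw [e])
  obtain ⟨m, m1, m2⟩ := common hs hu
  by_cases e1 : m = l <;> by_cases e2 : m = l'
  · subst e1 e2
    obtain ⟨a, a1, a2⟩ := ext1 p m
    obtain ⟨z, z1, z2⟩ := ext1 p' m
    have := (p5 hφ a1.symm m1 m2 z1 a2 hpp z2.symm).2.2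
    simpa only [Sym2.eq_swap (a := m)] using this
  · subst e1
    obtain ⟨z, z1, z2⟩ := ext1 l' p'
    have := (p5 hφ m1 m2 h' z1 hpp e2 z2.symm).2.1
    simpa only [Sym2.eq_swap (a := m)] using this
  · subst e2
    obtain ⟨z, z1, z2⟩ := ext1 l p
    have := (p5 hφ h' m1.symm h z1 hpp.symm e1 z2.symm).2.1
    simpa only [Sym2.eq_swap (a := l)] using this.symm
  · exact (p5 hφ h.symm m1 m2 h' (Ne.symm e1) hpp e2).1

/-- The edge with class `(u, v)` and position `x`. -/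
def ed (z : (F × F) × F) : G.edgeSet :=
  ⟨s((false, z.1.1, z.2), (true, z.1.2, z.1.1 * z.1.2 - z.2)),
    show G.Adj _ _ from ⟨by simp, by simp⟩⟩

lemma ed_bij : Function.Bijective ed := by
  constructor
  · rintro ⟨⟨u, v⟩, x⟩ ⟨⟨u', v'⟩, x'⟩ h
    simp only [ed, Subtype.mk.injEq, Sym2.eq, Sym2.rel_iff', Prod.mk.injEq,
      Prod.swap_prod_mk] at h
    grind
  · rintro ⟨e, he⟩
    induction e using Sym2.ind with
    | h a b =>
      obtain ⟨s, u, x⟩ := a
      obtain ⟨t, v, y⟩ := b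
      obtain ⟨h1, h2⟩ : G.Adj _ _ := he
      simp only at h1 h2
      cases s <;> cases t <;> simp only [ne_eq, not_true_eq_false] at h1
      · exact ⟨((u, v), x), by simp [ed, ← h2]⟩
      · refine ⟨((v, u), y), ?_⟩
        simp only [ed, Subtype.mk.injEq, mul_comm v, ← h2, add_sub_cancel_right]
        exact Sym2.eq_swap

lemma good_diff {φ : G.edgeSet → Fin c} (hφ : Good φ) {z w : (F × F) × F} (h : z.1 ≠ w.1) :
    φ (ed z) ≠ φ (ed w) := by
  by_cases h1 : z.1.1 = w.1.1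
  · have h2 : z.1.2 ≠ w.1.2 := fun h2 => h (Prod.ext h1 h2)
    have := diff hφ (G.adj_symm (ed z).2) (G.adj_symm (ed w).2) rfl h2
    simpa only [ed, Sym2.eq_swap (a := ((true, w.1.2, _) : W))] using this
  · have := diff hφ (ed z).2 (ed w).2 rfl h1
    simpa only [ed, Sym2.eq_swap (a := ((true, z.1.2, _) : W))] using this

lemma far {H : G.Subgraph} (hH : IsTreeOf 5 H) {p l p' l' : W} (h : H.Adj p l) (h' : H.Adj p' l')
    (hs : p.1 = p'.1) (hu : p.2.1 = p'.2.1) (hv : l.2.1 = l'.2.1) : p = p' := by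
  by_contra hp
  have g := h.adj_sub
  have g' := h'.adj_sub
  have a1 : ∀ a, G.Adj a p → ¬ G.Adj a p' := fun a h1 h2 => hp (same h1.symm h2 hu)
  have hl : l ≠ l' := fun e => a1 l g.symm (e ▸ g'.symm)
  have a2 : ∀ a, G.Adj a l → ¬ G.Adj a l' := fun a h1 h2 => hl (same h1.symm h2 hv)
  have a3 : ∀ a, G.Adj a p → ¬ G.Adj a l' := fun a h1 h2 =>
    g'.1 (hs.symm.trans (side h1.symm h2))
  have a4 : ∀ a, G.Adj a l → ¬ G.Adj a p' := fun a h1 h2 =>
    g.1 (hs.trans (side h1.symm h2).symm)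
  have n1 : p ≠ l' := fun e => g'.1 (hs.symm.trans (congrArg _ e))
  have n2 : l ≠ p' := fun e => g.1 (hs.trans (congrArg _ e).symm)
  have key : ∀ a b : H.verts, H.coe.Adj a b → (G.Adj a p ∨ G.Adj a l) →
      (G.Adj b p ∨ G.Adj b l) := by
    intro a b hab ha
    have hab' : G.Adj a b := H.adj_sub hab
    by_cases e1 : a.1 = p
    · exact Or.inl (e1 ▸ hab'.symm)
    by_cases e2 : a.1 = l
    · exact Or.inr (e2 ▸ hab'.symm)
    have e3 : a.1 ≠ p' := fun e => ha.elim (fun q => q.1 (e ▸ hs.symm)) fun q =>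
      a4 _ g.symm.symm (by exact absurd (e ▸ q.symm : G.Adj l p') (a1 l g.symm))
    have e4 : a.1 ≠ l' := fun e => ha.elim (fun q => a1 l' (e ▸ q) g'.symm) fun q =>
      a4 l' (e ▸ q) g'.symm
    have hv5 : ({p, l, p', l', a.1} : Set W) = H.verts := by
      refine Set.eq_of_subset_of_ncard_le ?_ ?_ (Set.toFinite _)
      · simp [Set.insert_subset_iff, h.fst_mem, h.snd_mem, h'.fst_mem, h'.snd_mem]
      · rw [hH.2, Set.ncard_insert_of_notMem (by simp [g.ne, hp, n1, Ne.symm e1]),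
          Set.ncard_insert_of_notMem (by simp [hl, n2, Ne.symm e2]),
          Set.ncard_insert_of_notMem (by simp [g'.ne, Ne.symm e3]),
          Set.ncard_pair (Ne.symm e4)]
    have hb : b.1 ∈ ({p, l, p', l', a.1} : Set W) := hv5.ge b.2
    rcases hb with hb | hb | hb | hb | hb
    · exact Or.inr (hb ▸ g)
    · exact Or.inl (hb ▸ g.symm)
    · exact absurd (hb ▸ hab') (ha.elim (a1 _) (a4 _))
    · exact absurd (hb ▸ hab') (ha.elim (a3 _) (a2 _))
    · exact absurd hb.symm hab'.ne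
  obtain ⟨w⟩ := hH.1.connected ⟨p, h.fst_mem⟩ ⟨l', h'.snd_mem⟩
  have : ∀ {a b : H.verts} (_ : H.coe.Walk a b), (G.Adj a p ∨ G.Adj a l) →
      (G.Adj b p ∨ G.Adj b l) := by
    intro a b w
    induction w with
    | nil => exact id
    | cons hab _ ih => exact fun ha => ih (key _ _ hab ha)
  exact (this w (Or.inr g)).elim (fun q => a1 _ q g'.symm) fun q => a4 _ q g'.symm

lemma good_of (g : F × F ↪ Fin c) : Good fun e => g ((Equiv.ofBijective _ ed_bij).symm e).1 := by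
  intro H hH e f he hf h
  obtain ⟨z, rfl⟩ := ed_bij.2 e
  obtain ⟨w, rfl⟩ := ed_bij.2 f
  simp only [Equiv.ofBijective_symm_apply_apply, EmbeddingLike.apply_eq_iff_eq] at h
  have := far hH (Subgraph.mem_edgeSet.1 he) (Subgraph.mem_edgeSet.1 hf) rfl
    (congrArg (fun i : F × F => i.1) h :) (congrArg (fun i : F × F => i.2) h :)
  simp only [Prod.mk.injEq, true_and] at this
  rw [Prod.ext h this.2]

lemma low : Nat.factorial 3481 ≤ Nat.card {φ : G.edgeSet → Fin 3481 // Good φ} := by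
  have h : Nat.card (F × F ↪ Fin 3481) = Nat.factorial 3481 := by
    rw [Nat.card_eq_fintype_card, Fintype.card_embedding_eq, Fintype.card_prod, ZMod.card,
      Fintype.card_fin, Nat.descFactorial_self]
  rw [← h]
  refine Nat.card_le_card_of_injective (fun g => ⟨_, good_of g⟩) fun g g' hg => ?_
  ext1 i
  simpa using congrFun (congrArg Subtype.val hg) (ed (i, 0))

lemma up : Nat.card {φ : G.edgeSet → Fin 3482 // Good φ} ≤
    Nat.factorial 3482 * (3481 * 2 ^ 59) := by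
  classical
  have miss : ∀ g : F × F ↪ Fin 3482, ∃ y, ∀ x, x ∉ Set.range g → x = y := by
    intro g
    have h1 : (Set.range g)ᶜ.ncard = 1 := by
      rw [Set.ncard_compl, Set.ncard_range_of_injective g.injective]
      simp
    obtain ⟨y, hy⟩ := Set.ncard_eq_one.1 h1
    exact ⟨y, fun x hx => by simpa [hy] using (show x ∈ (Set.range g)ᶜ from hx)⟩
  choose y hy using miss
  have h : Nat.card ((F × F ↪ Fin 3482) × (F × F) × Finset F) =
      Nat.factorial 3482 * (3481 * 2 ^ 59) := by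
    have hc : Fintype.card (F × F) = 3481 := by rw [Fintype.card_prod, ZMod.card]
    have hd : ∀ n : ℕ, (n + 1).descFactorial n = (n + 1).factorial := fun n => by
      rw [← Nat.descFactorial_self, Nat.descFactorial_succ, Nat.add_sub_cancel_left, one_mul]
    rw [Nat.card_eq_fintype_card, Fintype.card_prod, Fintype.card_embedding_eq,
      Fintype.card_prod (F × F), hc, Fintype.card_finset, ZMod.card, Fintype.card_fin, hd 3481]
  rw [← h, ← Set.ncard_univ ((F × F ↪ Fin 3482) × (F × F) × Finset F)]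
  refine le_trans (Set.ncard_le_ncard (t := (fun d : (F × F ↪ Fin 3482) × (F × F) × Finset F =>
    fun e => let z := (Equiv.ofBijective _ ed_bij).symm e
      if z.1 = d.2.1 ∧ z.2 ∈ d.2.2 then y d.1 else d.1 z.1) '' Set.univ) (fun φ hφ => ?_)
    (Set.toFinite _)) (Set.ncard_image_le (Set.toFinite _))
  have hφ : Good φ := hφ
  let g : F × F ↪ Fin 3482 := ⟨fun i => φ (ed (i, 0)), fun i j hij => by
    by_contra hn
    exact good_diff hφ (z := (i, 0)) (w := (j, 0)) hn hij⟩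
  have h1 : ∀ z, φ (ed z) ≠ g z.1 → φ (ed z) = y g := by
    intro z hz
    refine hy g _ ?_
    rintro ⟨j, hj⟩
    by_cases e : z.1 = j
    · exact hz (e ▸ hj.symm)
    · exact good_diff hφ (w := (j, 0)) e hj.symm
  obtain ⟨i, hi⟩ : ∃ i, ∀ z, φ (ed z) ≠ g z.1 → z.1 = i := by
    by_cases e : ∃ w, φ (ed w) ≠ g w.1
    · obtain ⟨w, hw⟩ := e
      refine ⟨w.1, fun z hz => ?_⟩
      by_contra hn
      exact good_diff hφ hn ((h1 z hz).trans (h1 w hw).symm)
    · exact ⟨0, fun z hz => absurd ⟨z, hz⟩ e⟩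
  refine ⟨(g, i, Finset.univ.filter fun x => φ (ed (i, x)) ≠ g i), trivial, funext fun e => ?_⟩
  obtain ⟨z, rfl⟩ := ed_bij.2 e
  simp only [Equiv.ofBijective_symm_apply_apply, Finset.mem_filter, Finset.mem_univ, true_and]
  split_ifs with hz
  · obtain ⟨rfl, hz⟩ := hz
    exact (h1 z hz).symm
  · by_contra hn
    have := hi z (Ne.symm hn)
    subst this
    exact hz ⟨rfl, Ne.symm hn⟩

lemma numeric : (3482 * (3481 * 2 ^ 59) : ℝ) < (3482 / 3481) ^ (59 * (59 * 59)) := by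
  have h1 : (60 / 59 : ℝ) ≤ (3482 / 3481) ^ 59 := by norm_num
  have h2 : (269 / 100 : ℝ) ≤ (60 / 59) ^ 59 := by norm_num
  have h3 : (3482 * (3481 * 2 ^ 59) : ℝ) < (269 / 100) ^ 59 := by norm_num
  rw [pow_mul, pow_mul]
  exact h3.trans_le (pow_le_pow_left₀ (by norm_num) (h2.trans
    (pow_le_pow_left₀ (by norm_num) h1 _)) _)

lemma final {a b f : ℝ} {N : ℕ} (hf : 0 < f) (ha : f ≤ a) (hb : b ≤ 3482 * f * (3481 * 2 ^ 59))
    (hN : (3482 * (3481 * 2 ^ 59) : ℝ) < (3482 / 3481) ^ N) : b / 3482 ^ N < a / 3481 ^ N := by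
  rw [div_pow, lt_div_iff₀ (by positivity)] at hN
  rw [div_lt_div_iff₀ (by positivity) (by positivity)]
  have h1 : (0 : ℝ) < 3481 ^ N := by positivity
  have h2 : (0 : ℝ) < 3482 ^ N := by positivity
  calc b * 3481 ^ N ≤ 3482 * f * (3481 * 2 ^ 59) * 3481 ^ N := by gcongr
    _ = f * (3482 * (3481 * 2 ^ 59) * 3481 ^ N) := by ring
    _ < f * 3482 ^ N := by gcongr
    _ ≤ _ := by gcongr

theorem result : ¬ ∀ (V : Type) [Finite V] (G : SimpleGraph V) (k c c' : ℕ), 1 ≤ c' → c' ≤ c →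
    ∀ t : ℝ, tail G c' k t ≤ tail G c k t := by
  intro h
  have h1 := h W G 5 3482 3481 (by norm_num) (by norm_num)
    ({H : G.Subgraph | IsTreeOf 5 H}.ncard : ℕ)
  have e : ∀ (c : ℕ) (φ : G.edgeSet → Fin c),
      (({H : G.Subgraph | IsTreeOf 5 H}.ncard : ℕ) : ℝ) ≤ T G 5 φ ↔ Good φ := by
    intro c φ
    rw [Nat.cast_le, T]
    constructor
    · intro h2 H hH
      have := Set.eq_of_subset_of_ncard_le (fun H hH => hH.1) h2 (Set.toFinite _)
      exact (this.ge hH).2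
    · exact fun h2 => Set.ncard_le_ncard (fun H hH => ⟨hH, h2 H hH⟩) (Set.toFinite _)
  have hE : Nat.card G.edgeSet = 59 * (59 * 59) := by
    rw [← Nat.card_eq_of_bijective _ ed_bij, Nat.card_prod, Nat.card_prod, Nat.card_zmod, mul_comm]
  simp only [tail, e, Nat.card_fun, Nat.card_fin] at h1
  have h2 := numeric
  rw [← hE] at h2
  have h3 := up
  rw [show 3482 = 3481 + 1 from rfl, Nat.factorial_succ] at h3
  have h4 := low
  have h5 := Nat.factorial_pos 3481
  generalize Nat.factorial 3481 = f at h3 h4 h5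
  refine absurd h1 (not_le.2 ?_)
  push_cast
  exact final (f := f) (by exact_mod_cast h5) (by exact_mod_cast h4) (by exact_mod_cast h3) h2

end Pool.Agent.Results.MP_8b2dc5_pr.No
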